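import Pool.Agent.Q283.FT.Stm2

set_option autoImplicit false

namespace Pool.Agent.Q198.FT

open Finset
open Pool.Agent.Q283.FT
open Pool.Agent.Q7.LK

theorem ex_dot {f : ℕ} (a b : Fin f → ZMod 2) (ha : a ≠ 0) (hab : a ≠ b) :
    ∃ φ : Fin f → ZMod 2, dot φ a = 1 ∧ dot φ b = 0 := by
  classical
  have hz : ∀ z : ZMod 2, z = 0 ∨ z = 1 := by decide
  have hs : ∀ (t : Fin f) (z : Fin f → ZMod 2), dot (Pi.single t 1) z = z t := fun t z => by
    simp [dot, Pi.single_apply]
  have hadd : ∀ (φ φ' z : Fin f → ZMod 2), dot (φ + φ') z = dot φ z + dot φ' z := fun φ φ' z => by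
    simp only [dot, Pi.add_apply, add_mul, sum_add_distrib]
  by_cases h : ∃ t, a t = 1 ∧ b t = 0
  · obtain ⟨t, h1, h2⟩ := h
    exact ⟨Pi.single t 1, by rw [hs, h1], by rw [hs, h2]⟩
  · have h' : ∀ t, a t = 1 → b t = 1 := fun t ht => by
      rcases hz (b t) with h0 | h0
      · exact absurd ⟨t, ht, h0⟩ h
      · exact h0
    obtain ⟨t, ht⟩ : ∃ t, a t = 1 := by
      by_contra hn
      refine ha (funext fun t => ?_)
      rcases hz (a t) with h0 | h0
      · simpa using h0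
      · exact absurd ⟨t, h0⟩ hn
    obtain ⟨s, hs1⟩ := Function.ne_iff.1 hab
    have has : a s = 0 := by
      rcases hz (a s) with h0 | h0
      · exact h0
      · exact absurd (h0.trans (h' s h0).symm) hs1
    have hbs : b s = 1 := by
      rcases hz (b s) with h0 | h0
      · exact absurd (has.trans h0.symm) hs1
      · exact h0
    refine ⟨Pi.single t 1 + Pi.single s 1, ?_, ?_⟩
    · rw [hadd, hs, hs, ht, has, add_zero]
    · rw [hadd, hs, hs, h' t ht, hbs]; decide

theorem dot_add' {f : ℕ} (φ a b : Fin f → ZMod 2) : dot φ (a + b) = dot φ a + dot φ b := by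
  simp only [dot, Pi.add_apply, mul_add, sum_add_distrib]

theorem irr : S_IRR := by
  intro f c w hc
  set S := Algebra.adjoin (ZMod 2) (Set.range fun φ : Fin f → ZMod 2 => (opT c w φ : Module.End (ZMod 2) U2)) with hS
  have h2 : ∀ z : ZMod 2, z + z = 0 := by decide
  have hne : ∀ i j : Fin 3, i ≠ j → c i + c j ≠ 0 := fun i j hij h => by
    refine hij (hc (funext fun t => ?_))
    have h3 := congrFun h t
    simp only [Pi.add_apply, Pi.zero_apply] at h3
    have : ∀ x y : ZMod 2, x + y = 0 → x = y := by decide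
    exact this _ _ h3
  have hne' : c 2 + c 1 ≠ c 2 + c 0 := fun h => by
    have := add_left_cancel h
    exact absurd (hc this) (by decide)
  obtain ⟨φ, h11, h12⟩ := ex_dot (c 2 + c 1) (c 2 + c 0) (hne 2 1 (by decide)) hne'
  obtain ⟨ψ, h21, h22⟩ := ex_dot (c 2 + c 0) (c 2 + c 1) (hne 2 0 (by decide)) hne'.symm
  rw [dot_add'] at h11 h12 h21 h22
  let E12 : Module.End (ZMod 2) U2 := LinearMap.inl (ZMod 2) (ZMod 2) (ZMod 2) ∘ₗ LinearMap.snd (ZMod 2) (ZMod 2) (ZMod 2)
  let E21 : Module.End (ZMod 2) U2 := LinearMap.inr (ZMod 2) (ZMod 2) (ZMod 2) ∘ₗ LinearMap.fst (ZMod 2) (ZMod 2) (ZMod 2)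
  have e12 : E12 = opT c w φ + algebraMap (ZMod 2) (Module.End (ZMod 2) U2) (dot φ (c 2) + dot φ w) := by
    refine LinearMap.ext fun x => ?_
    obtain ⟨x, y⟩ := x
    have hk : ∀ α β γ ω x y : ZMod 2, α + β = 1 → α + γ = 0 →
        (y, (0 : ZMod 2)) = (α * (x + y) + β * y + ω * x + (α + ω) * x, α * (x + y) + γ * x + ω * y + (α + ω) * y) := by
      decide
    exact hk _ _ _ _ _ _ h11 h12
  have e21 : E21 = opT c w ψ + algebraMap (ZMod 2) (Module.End (ZMod 2) U2) (dot ψ (c 2) + dot ψ w) := by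
    refine LinearMap.ext fun x => ?_
    obtain ⟨x, y⟩ := x
    have hk : ∀ α β γ ω x y : ZMod 2, α + γ = 1 → α + β = 0 →
        ((0 : ZMod 2), x) = (α * (x + y) + β * y + ω * x + (α + ω) * x, α * (x + y) + γ * x + ω * y + (α + ω) * y) := by
      decide
    exact hk _ _ _ _ _ _ h21 h22
  have m12 : E12 ∈ S := by
    rw [e12]
    exact S.add_mem (Algebra.subset_adjoin ⟨φ, rfl⟩) (S.algebraMap_mem _)
  have m21 : E21 ∈ S := by
    rw [e21]
    exact S.add_mem (Algebra.subset_adjoin ⟨ψ, rfl⟩) (S.algebraMap_mem _)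
  refine (Algebra.eq_top_iff).2 fun g => ?_
  have hg : g = (g (1, 0)).1 • (E12 * E21) + (g (1, 0)).2 • E21 + (g (0, 1)).1 • E12 + (g (0, 1)).2 • (E21 * E12) := by
    refine LinearMap.ext fun x => ?_
    have hx : x = x.1 • ((1, 0) : U2) + x.2 • ((0, 1) : U2) := by
      ext <;> simp
    conv_lhs => rw [hx, map_add, map_smul, map_smul]
    ext
    · simp [E12, E21, mul_comm]
    · simp [E12, E21, mul_comm]
  rw [hg]
  exact S.add_mem (S.add_mem (S.add_mem (S.smul_mem (S.mul_mem m12 m21) _) (S.smul_mem m21 _)) (S.smul_mem m12 _))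
    (S.smul_mem (S.mul_mem m21 m12) _)

end Pool.Agent.Q198.FT
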